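import Pool.Agent.H76.AB.Stm

set_option autoImplicit false

/-! Parts ANC and CASE of crew RA (tables of helper76). -/

namespace H32.AB

open SimpleGraph H76.AB

/-- counting over the fibres of a map -/
theorem ncard_fiber {V : Type} [Finite V] (S T : Set V) (f : V → V) (k : ℕ)
    (hf : ∀ x ∈ S, f x ∈ T) (hk : ∀ t ∈ T, {x | x ∈ S ∧ f x = t}.ncard = k) :
    S.ncard = T.ncard * k := by
  classical
  have := Fintype.ofFinite V
  rw [Set.ncard_eq_toFinset_card' S, Set.ncard_eq_toFinset_card' T,
    Finset.card_eq_sum_card_fiberwise (f := f) (t := T.toFinset)]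
  · rw [Finset.sum_const_nat]
    intro t ht
    rw [Set.mem_toFinset] at ht
    rw [← hk t ht, Set.ncard_eq_toFinset_card']
    congr 1
    ext x
    simp
  · intro x hx
    rw [Finset.mem_coe, Set.mem_toFinset] at hx ⊢
    exact hf x hx

theorem t_ANC : S_ANC := by
  intro m w N g R hN hS
  have := hS.fin
  have h1 : ∀ P, Valid m w P → ∀ x, R.node x = [] → R.node (anc R P x) = P := by
    intro P
    induction P with
    | nil => intro _ x hx; exact hx
    | cons p P ih =>
      intro hP x hx
      obtain ⟨h1, h2, h3⟩ := hP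
      have h4 := ih h3 x hx
      have h5 : R.lev (anc R P x) = P.length := by unfold Raw.lev; rw [h4]
      show R.node (R.par (anc R P x) p) = p :: P
      rw [hS.hpar _ p (by rw [h5]; exact h1) (by rw [h5]; exact h2), h4]
  have h2 : ∀ P, Valid m w P → ∀ u, R.node u = P →
      {x | R.node x = [] ∧ anc R P x = u}.ncard = N ^ P.length := by
    intro P
    induction P with
    | nil =>
      intro _ u hu
      have : {x | R.node x = [] ∧ anc R [] x = u} = {u} := by
        ext x
        simp only [Set.mem_ofPred_eq, Set.mem_singleton_iff, anc]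
        constructor
        · rintro ⟨_, h⟩; exact h
        · rintro rfl; exact ⟨hu, rfl⟩
      rw [this, Set.ncard_singleton]; simp
    | cons p P ih =>
      intro hP u hu
      obtain ⟨hP1, hP2, hP3⟩ := hP
      rw [ncard_fiber {x | R.node x = [] ∧ anc R (p :: P) x = u}
        {c | R.node c = P ∧ R.par c p = u} (anc R P) (N ^ P.length), hS.child u p P hu,
        List.length_cons, pow_succ, mul_comm]
      · rintro x ⟨hx1, hx2⟩
        exact ⟨h1 P hP3 x hx1, hx2⟩
      · rintro c ⟨hc1, hc2⟩
        rw [← ih hP3 c hc1]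
        congr 1
        ext x
        simp only [Set.mem_ofPred_eq, anc]
        constructor
        · rintro ⟨⟨h3, _⟩, h4⟩; exact ⟨h3, h4⟩
        · rintro ⟨h3, h4⟩; exact ⟨⟨h3, by rw [h4]; exact hc2⟩, h4⟩
  refine ⟨h1, h2, ?_, ?_, ?_⟩
  · intro P hP
    rw [ncard_fiber {x | R.node x = []} {u | R.node u = P} (anc R P) (N ^ P.length), mul_comm]
    · intro x hx
      exact h1 P hP x hx
    · intro u hu
      exact h2 P hP u hu
  · have key : ∀ P, ∀ u, R.node u = P → Valid m w P := by
      intro P
      induction P with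
      | nil => intro u _; trivial
      | cons p P ih =>
        intro u hu
        have h3 := hS.len u
        unfold Raw.lev at h3
        rw [hu, List.length_cons] at h3
        have h4 : {x | R.node x = P ∧ R.par x p = u}.ncard = N := hS.child u p P hu
        have h5 : {x | R.node x = P ∧ R.par x p = u}.Nonempty := by
          rw [Set.nonempty_iff_ne_empty]
          intro h6
          rw [h6, Set.ncard_empty] at h4
          omega
        obtain ⟨x, hx, _⟩ := h5
        exact ⟨by omega, hS.hval u p P hu, ih x hx⟩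
    intro u
    exact key _ u rfl
  · obtain ⟨x, hx⟩ := hS.ne
    refine (Set.finite_range R.node).subset fun P hP => ?_
    exact ⟨anc R P x, h1 P hP x hx⟩

theorem sum_cnt {q : ℕ} (w : ℕ → ℕ) (τ : List ℕ → ℕ → Fin q) (P : List ℕ) :
    ∑ i, cnt w τ P i = w P.length := by
  have h : ∀ i, cnt w τ P i = ((Finset.range (w P.length)).filter (fun p => τ P p = i)).card := by
    intro i
    unfold cnt
    rw [← Set.ncard_coe_finset]
    congr 1
    ext p
    simp
  rw [Finset.sum_congr rfl (fun i _ => h i),
    ← Finset.card_eq_sum_card_fiberwise (fun _ _ => Finset.mem_coe.2 (Finset.mem_univ _)),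
    Finset.card_range]

theorem t_CASE : S_CASE := by
  intro q s τ hq
  set w : ℕ → ℕ := fun i => q * s.getD i 0 with hw
  by_cases hall : ∀ P, Valid s.length w P → P.length < s.length → ∀ i,
      s.getD P.length 0 ≤ cnt w τ P i
  · exact Or.inl hall
  · right
    push Not at hall
    -- lengths of unbalanced valid nodes
    let U : ℕ → Prop := fun n => ∃ P, Valid s.length w P ∧ P.length < s.length ∧
      P.length = s.length - 1 - n ∧ ∃ i, cnt w τ P i < s.getD P.length 0
    have hex : ∃ n, U n := by
      obtain ⟨P, h1, h2, i, h3⟩ := hall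
      exact ⟨s.length - 1 - P.length, P, h1, h2, by omega, i, h3⟩
    classical
    obtain ⟨P, h1, h2, h3, i, h4⟩ := Nat.find_spec hex
    have hmin : ∀ Q, Valid s.length w Q → P.length < Q.length → Q.length < s.length → ∀ i,
        s.getD Q.length 0 ≤ cnt w τ Q i := by
      intro Q hQ1 hQ2 hQ3 j
      by_contra hlt
      rw [not_le] at hlt
      have h5 : U (s.length - 1 - Q.length) := ⟨Q, hQ1, hQ3, by omega, j, hlt⟩
      have h6 := Nat.find_min' hex h5
      omega
    have hbig : ∃ j, s.getD P.length 0 + 1 ≤ cnt w τ P j := by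
      by_contra hno
      push Not at hno
      have h5 : ∑ j, cnt w τ P j < ∑ _j : Fin q, s.getD P.length 0 :=
        Finset.sum_lt_sum (fun j _ => Nat.lt_succ_iff.1 (hno j)) ⟨i, Finset.mem_univ _, h4⟩
      rw [sum_cnt, Finset.sum_const, Finset.card_univ, Fintype.card_fin, smul_eq_mul] at h5
      exact lt_irrefl _ h5
    obtain ⟨j, hj⟩ := hbig
    exact ⟨P, j, h1, h2, hj, hmin⟩

end H32.AB
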